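import Pool.Agent.N495.TS.StmR

/-!
# Serre's lifting lemma for `SL₂(ℤ/p^(k+1))`, `p ≥ 5`
-/

set_option autoImplicit false

namespace Pool.Agent.N524.TS

section alg
variable {R A : Type*} [CommRing R] [Ring A] [Algebra R A]

lemma expand (X : A) (m : ℕ) : ∃ Z : A,
    (1 + X) ^ m = 1 + (m : R) • X + (m.choose 2 : R) • (X * X) + (m.choose 3 : R) • (X * X * X)
      + X * X * X * X * Z := by
  induction m with
  | zero => exact ⟨0, by simp⟩
  | succ m ih =>
    obtain ⟨Z, hZ⟩ := ih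
    refine ⟨(m.choose 3 : R) • 1 + Z + Z * X, ?_⟩
    rw [pow_succ, hZ]
    have h2 : (m + 1).choose 2 = m.choose 1 + m.choose 2 := Nat.choose_succ_succ m 1
    have h3 : (m + 1).choose 3 = m.choose 2 + m.choose 3 := Nat.choose_succ_succ m 2
    rw [h2, h3, Nat.choose_one_right]
    push_cast
    simp only [mul_add, add_mul, mul_one, one_mul, smul_mul_assoc, mul_smul_comm, ← mul_assoc]
    module

/-- the `p`-th power for `n ≥ 1` -/
lemma step {p : ℕ} (hp : p.Prime) (hp5 : 5 ≤ p) (n : ℕ) (X : A) : ∃ Z : A,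
    (1 + ((p : R) ^ (n + 1)) • X) ^ p
      = 1 + ((p : R) ^ (n + 2)) • X + ((p : R) ^ (n + 3)) • Z := by
  obtain ⟨Z, hZ⟩ := expand (R := R) (((p : R) ^ (n + 1)) • X) p
  obtain ⟨c2, hc2⟩ : p ∣ p.choose 2 := hp.dvd_choose_self (by norm_num) (by omega)
  rw [hZ, hc2]
  refine ⟨((c2 : R) * (p : R) ^ n) • (X * X) + ((p.choose 3 : R) * (p : R) ^ (2 * n)) • (X * X * X)
    + ((p : R) ^ (3 * n + 1)) • (X * X * X * X * Z), ?_⟩
  push_cast
  simp only [smul_mul_assoc, mul_smul_comm, smul_smul, smul_add]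
  module

/-- the `p`-th power for `n = 0` -/
lemma step0 {p : ℕ} (hp : p.Prime) (hp5 : 5 ≤ p) (u V : A) (hu : u * u = 0) : ∃ Z : A,
    (1 + (u + (p : R) • V)) ^ p = 1 + ((p : R) ^ 1) • u + ((p : R) ^ 2) • Z := by
  obtain ⟨X, hX⟩ : ∃ X, X = u + (p : R) • V := ⟨_, rfl⟩
  obtain ⟨B, hB⟩ : ∃ B, B = u * V + V * u + (p : R) • (V * V) := ⟨_, rfl⟩
  have hXX : X * X = (p : R) • B := by
    rw [hX, hB]
    simp only [mul_add, add_mul, smul_mul_assoc, mul_smul_comm, hu, smul_add, smul_smul, zero_add]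
    module
  rw [← hX]
  obtain ⟨Z, hZ⟩ := expand (R := R) X p
  obtain ⟨c2, hc2⟩ : p ∣ p.choose 2 := hp.dvd_choose_self (by norm_num) (by omega)
  obtain ⟨c3, hc3⟩ : p ∣ p.choose 3 := hp.dvd_choose_self (by norm_num) (by omega)
  have h4 : X * X * X * X * Z = ((p : R) ^ 2) • (B * B * Z) := by
    have : X * X * X * X * Z = (X * X) * (X * X) * Z := by noncomm_ring
    rw [this, hXX]
    simp only [smul_mul_assoc, mul_smul_comm, smul_smul]
    rw [pow_two]
  rw [hZ, h4, hXX, hc2, hc3]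
  refine ⟨V + (c2 : R) • B + (c3 : R) • (B * X) + B * B * Z, ?_⟩
  push_cast
  simp only [smul_mul_assoc, mul_smul_comm, smul_smul, smul_add]
  have : (p : R) • X = (p : R) • u + ((p : R) * p) • V := by
    rw [hX, smul_add, smul_smul]
  rw [this]
  module

end alg

section zmod
variable {p k : ℕ}

lemma cast_zero (hp : p.Prime) (x : ZMod (p ^ (k + 1)))
    (h : ZMod.castHom (dvd_pow_self p (Nat.succ_ne_zero k)) (ZMod p) x = 0) :
    ∃ t, x = (p : ZMod (p ^ (k + 1))) * t := by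
  haveI : NeZero (p ^ (k + 1)) := ⟨pow_ne_zero _ hp.ne_zero⟩
  have hx : x = ((x.val : ℕ) : ZMod (p ^ (k + 1))) := (ZMod.natCast_zmod_val x).symm
  rw [hx, map_natCast, ZMod.natCast_eq_zero_iff] at h
  obtain ⟨c, hc⟩ := h
  refine ⟨(c : ZMod (p ^ (k + 1))), ?_⟩
  rw [hx, hc]
  push_cast
  rfl

lemma pow_mul_zero (hp : p.Prime) {n : ℕ} (hn : n ≤ k) (x : ZMod (p ^ (k + 1)))
    (h : (p : ZMod (p ^ (k + 1))) ^ n * x = 0) : ∃ t, x = (p : ZMod (p ^ (k + 1))) * t := by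
  haveI : NeZero (p ^ (k + 1)) := ⟨pow_ne_zero _ hp.ne_zero⟩
  have hx : x = ((x.val : ℕ) : ZMod (p ^ (k + 1))) := (ZMod.natCast_zmod_val x).symm
  have h1 : ((p ^ n * x.val : ℕ) : ZMod (p ^ (k + 1))) = 0 := by
    push_cast
    rw [← hx, h]
  rw [ZMod.natCast_eq_zero_iff] at h1
  have h2 : p ^ n * p ^ (k + 1 - n) ∣ p ^ n * x.val := by
    rw [← pow_add]
    have : n + (k + 1 - n) = k + 1 := by omega
    rwa [this]
  have h3 : p ^ (k + 1 - n) ∣ x.val :=
    (Nat.mul_dvd_mul_iff_left (pow_pos hp.pos n)).1 h2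
  have h4 : p ∣ x.val := (dvd_pow_self p (by omega)).trans h3
  obtain ⟨c, hc⟩ := h4
  refine ⟨(c : ZMod (p ^ (k + 1))), ?_⟩
  rw [hx, hc]
  push_cast
  rfl

lemma mat_ker (hp : p.Prime) (M N : Matrix (Fin 2) (Fin 2) (ZMod (p ^ (k + 1))))
    (h : M.map (ZMod.castHom (dvd_pow_self p (Nat.succ_ne_zero k)) (ZMod p))
      = N.map (ZMod.castHom (dvd_pow_self p (Nat.succ_ne_zero k)) (ZMod p))) :
    ∃ V : Matrix (Fin 2) (Fin 2) (ZMod (p ^ (k + 1))), M = N + (p : ZMod (p ^ (k + 1))) • V := by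
  have h1 : ∀ i j, ∃ t, M i j - N i j = (p : ZMod (p ^ (k + 1))) * t := by
    intro i j
    apply cast_zero hp
    have := congrFun (congrFun h i) j
    simp only [Matrix.map_apply] at this
    rw [map_sub, this, sub_self]
  choose V hV using h1
  refine ⟨Matrix.of V, ?_⟩
  ext i j
  have := hV i j
  simp only [Matrix.add_apply, Matrix.smul_apply, smul_eq_mul, Matrix.of_apply]
  rw [← this]
  ring

end zmod

section main
variable {p k : ℕ} {I : Submonoid (Matrix (Fin 2) (Fin 2) (ZMod (p ^ (k + 1))))}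

lemma inv_mem (hp : p.Prime) (hI : ∀ M ∈ I, IsUnit M.det) {M : Matrix (Fin 2) (Fin 2) (ZMod (p ^ (k + 1)))}
    (hM : M ∈ I) : ∃ N ∈ I, M * N = 1 ∧ N * M = 1 := by
  haveI : NeZero (p ^ (k + 1)) := ⟨pow_ne_zero _ hp.ne_zero⟩
  obtain ⟨u, hu⟩ : IsUnit M := (Matrix.isUnit_iff_isUnit_det M).2 (hI M hM)
  have ho : 0 < orderOf u := (isOfFinOrder_of_finite u).orderOf_pos
  refine ⟨M ^ (orderOf u - 1), I.pow_mem hM _, ?_, ?_⟩
  · rw [← pow_succ', Nat.sub_add_cancel ho, ← hu, ← Units.val_pow_eq_pow_val, pow_orderOf_eq_one]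
    rfl
  · rw [← pow_succ, Nat.sub_add_cancel ho, ← hu, ← Units.val_pow_eq_pow_val, pow_orderOf_eq_one]
    rfl

/-- the reduction modulo `p` -/
noncomputable abbrev red (p k : ℕ) :
    Matrix (Fin 2) (Fin 2) (ZMod (p ^ (k + 1))) →+* Matrix (Fin 2) (Fin 2) (ZMod p) :=
  (ZMod.castHom (dvd_pow_self p (Nat.succ_ne_zero k)) (ZMod p)).mapMatrix

lemma red_apply (M : Matrix (Fin 2) (Fin 2) (ZMod (p ^ (k + 1)))) :
    red p k M = M.map (ZMod.castHom (dvd_pow_self p (Nat.succ_ne_zero k)) (ZMod p)) := rfl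

/-- the matrix `s` is the reduction of an element of `I` of determinant one -/
def Rch (I : Submonoid (Matrix (Fin 2) (Fin 2) (ZMod (p ^ (k + 1)))))
    (s : Matrix (Fin 2) (Fin 2) (ZMod p)) : Prop :=
  ∃ M ∈ I, M.det = 1 ∧ red p k M = s

lemma Rch.mul {s t : Matrix (Fin 2) (Fin 2) (ZMod p)} (hs : Rch I s) (ht : Rch I t) :
    Rch I (s * t) := by
  obtain ⟨M, hM, hMd, rfl⟩ := hs
  obtain ⟨N, hN, hNd, rfl⟩ := ht
  exact ⟨M * N, I.mul_mem hM hN, by rw [Matrix.det_mul, hMd, hNd, one_mul], map_mul _ _ _⟩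

/-- commutators -/
lemma rch_comm (hp : p.Prime) (hI : ∀ M ∈ I, IsUnit M.det)
    {g h g' h' : Matrix (Fin 2) (Fin 2) (ZMod p)} (hg : ∃ M ∈ I, red p k M = g)
    (hh : ∃ M ∈ I, red p k M = h) (hgg : g * g' = 1) (hhh : h * h' = 1) :
    Rch I (g * h * g' * h') := by
  obtain ⟨M, hM, rfl⟩ := hg
  obtain ⟨N, hN, rfl⟩ := hh
  obtain ⟨M', hM', h1, h2⟩ := inv_mem hp hI hM
  obtain ⟨N', hN', h3, h4⟩ := inv_mem hp hI hN
  refine ⟨M * N * M' * N', I.mul_mem (I.mul_mem (I.mul_mem hM hN) hM') hN', ?_, ?_⟩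
  · have e1 : M.det * M'.det = 1 := by rw [← Matrix.det_mul, h1, Matrix.det_one]
    have e2 : N.det * N'.det = 1 := by rw [← Matrix.det_mul, h3, Matrix.det_one]
    rw [Matrix.det_mul, Matrix.det_mul, Matrix.det_mul]
    calc M.det * N.det * M'.det * N'.det = (M.det * M'.det) * (N.det * N'.det) := by ring
      _ = 1 := by rw [e1, e2, one_mul]
  · have e1 : red p k M' = g' := by
      calc red p k M' = red p k M' * (red p k M * g') := by rw [hgg, mul_one]
        _ = g' := by rw [← mul_assoc, ← map_mul, h2, map_one, one_mul]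
    have e2 : red p k N' = h' := by
      calc red p k N' = red p k N' * (red p k N * h') := by rw [hhh, mul_one]
        _ = h' := by rw [← mul_assoc, ← map_mul, h4, map_one, one_mul]
    rw [map_mul, map_mul, map_mul, e1, e2]

variable [Fact p.Prime]

lemma rch_e12 (hp5 : 5 ≤ p) (hI : ∀ M ∈ I, IsUnit M.det)
    (hs : ∀ s : Matrix (Fin 2) (Fin 2) (ZMod p), s.det = 1 → ∃ M ∈ I, red p k M = s)
    (x : ZMod p) : Rch I !![1, x; 0, 1] := by
  have hp : p.Prime := Fact.out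
  have h2 : (2 : ZMod p) ≠ 0 := by
    intro h
    have : ((2 : ℕ) : ZMod p) = 0 := by exact_mod_cast h
    rw [ZMod.natCast_eq_zero_iff] at this
    have := Nat.le_of_dvd (by norm_num) this
    omega
  have h3 : (3 : ZMod p) ≠ 0 := by
    intro h
    have : ((3 : ℕ) : ZMod p) = 0 := by exact_mod_cast h
    rw [ZMod.natCast_eq_zero_iff] at this
    have := Nat.le_of_dvd (by norm_num) this
    omega
  have hg := hs !![2, 0; 0, 2⁻¹] (by rw [Matrix.det_fin_two_of]; field_simp; ring)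
  have hh := hs !![1, x * 3⁻¹; 0, 1] (by rw [Matrix.det_fin_two_of]; ring)
  have := rch_comm hp hI hg hh (g' := !![2⁻¹, 0; 0, 2]) (h' := !![1, -(x * 3⁻¹); 0, 1])
    (by
      ext i j
      fin_cases i <;> fin_cases j <;> simp [Matrix.mul_apply, Fin.sum_univ_two, h2])
    (by
      ext i j
      fin_cases i <;> fin_cases j <;> simp [Matrix.mul_apply, Fin.sum_univ_two])
  convert this using 1
  ext i j
  fin_cases i <;> fin_cases j <;> simp [Matrix.mul_apply, Fin.sum_univ_two, h2] <;>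
    field_simp <;> ring

lemma rch_e21 (hp5 : 5 ≤ p) (hI : ∀ M ∈ I, IsUnit M.det)
    (hs : ∀ s : Matrix (Fin 2) (Fin 2) (ZMod p), s.det = 1 → ∃ M ∈ I, red p k M = s)
    (x : ZMod p) : Rch I !![1, 0; x, 1] := by
  have hp : p.Prime := Fact.out
  have h2 : (2 : ZMod p) ≠ 0 := by
    intro h
    have : ((2 : ℕ) : ZMod p) = 0 := by exact_mod_cast h
    rw [ZMod.natCast_eq_zero_iff] at this
    have := Nat.le_of_dvd (by norm_num) this
    omega
  have h3 : (3 : ZMod p) ≠ 0 := by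
    intro h
    have : ((3 : ℕ) : ZMod p) = 0 := by exact_mod_cast h
    rw [ZMod.natCast_eq_zero_iff] at this
    have := Nat.le_of_dvd (by norm_num) this
    omega
  have hg := hs !![2⁻¹, 0; 0, 2] (by rw [Matrix.det_fin_two_of]; field_simp; ring)
  have hh := hs !![1, 0; x * 3⁻¹, 1] (by rw [Matrix.det_fin_two_of]; ring)
  have := rch_comm hp hI hg hh (g' := !![2, 0; 0, 2⁻¹]) (h' := !![1, 0; -(x * 3⁻¹), 1])
    (by
      ext i j
      fin_cases i <;> fin_cases j <;> simp [Matrix.mul_apply, Fin.sum_univ_two, h2])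
    (by
      ext i j
      fin_cases i <;> fin_cases j <;> simp [Matrix.mul_apply, Fin.sum_univ_two])
  convert this using 1
  ext i j
  fin_cases i <;> fin_cases j <;> simp [Matrix.mul_apply, Fin.sum_univ_two, h2] <;>
    field_simp <;> ring

lemma rch_all (hp5 : 5 ≤ p) (hI : ∀ M ∈ I, IsUnit M.det)
    (hs : ∀ s : Matrix (Fin 2) (Fin 2) (ZMod p), s.det = 1 → ∃ M ∈ I, red p k M = s)
    (s : Matrix (Fin 2) (Fin 2) (ZMod p)) (hd : s.det = 1) : Rch I s := by
  have key : ∀ t : Matrix (Fin 2) (Fin 2) (ZMod p), t.det = 1 → t 1 0 ≠ 0 → Rch I t := by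
    intro t ht hc
    have := (rch_e12 hp5 hI hs ((t 0 0 - 1) / t 1 0)).mul
      ((rch_e21 hp5 hI hs (t 1 0)).mul (rch_e12 hp5 hI hs ((t 1 1 - 1) / t 1 0)))
    convert this using 1
    rw [Matrix.det_fin_two] at ht
    ext i j
    fin_cases i <;> fin_cases j <;> simp [Matrix.mul_apply, Fin.sum_univ_two]
    · field_simp; ring
    · field_simp; linear_combination (-1 : ZMod p) * ht
    · field_simp; ring
  by_cases hc : s 1 0 = 0
  · have hd' := hd
    rw [Matrix.det_fin_two, hc, mul_zero, sub_zero] at hd'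
    have h11 : s 1 1 ≠ 0 := fun h => by rw [h, mul_zero] at hd'; exact zero_ne_one hd'
    have h1 : Rch I (s * !![1, 0; 1, 1]) := by
      apply key
      · rw [Matrix.det_mul, hd, Matrix.det_fin_two_of]; ring
      · simp [Matrix.mul_apply, Fin.sum_univ_two, hc, h11]
    have h2 := h1.mul (rch_e21 hp5 hI hs (-1))
    convert h2 using 1
    rw [Matrix.mul_assoc]
    have : (!![1, 0; 1, 1] : Matrix (Fin 2) (Fin 2) (ZMod p)) * !![1, 0; -1, 1] = 1 := by
      ext i j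
      fin_cases i <;> fin_cases j <;> simp [Matrix.mul_apply, Fin.sum_univ_two]
    rw [this, mul_one]
  · exact key s hd hc

/-- `I` contains a matrix `1 + p^n W + p^(n+1) V` of determinant one -/
def Q (I : Submonoid (Matrix (Fin 2) (Fin 2) (ZMod (p ^ (k + 1))))) (n : ℕ)
    (W : Matrix (Fin 2) (Fin 2) (ZMod (p ^ (k + 1)))) : Prop :=
  ∃ M ∈ I, M.det = 1 ∧ ∃ V : Matrix (Fin 2) (Fin 2) (ZMod (p ^ (k + 1))),
    M = 1 + ((p : ZMod (p ^ (k + 1))) ^ n) • W + ((p : ZMod (p ^ (k + 1))) ^ (n + 1)) • V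

omit [Fact p.Prime] in
lemma Q.zero (n : ℕ) : Q I n 0 := ⟨1, I.one_mem, Matrix.det_one, 0, by simp⟩

omit [Fact p.Prime] in
lemma Q.add {n : ℕ} {W W' : Matrix (Fin 2) (Fin 2) (ZMod (p ^ (k + 1)))}
    (h : Q I (n + 1) W) (h' : Q I (n + 1) W') : Q I (n + 1) (W + W') := by
  obtain ⟨M, hM, hMd, V, hV⟩ := h
  obtain ⟨M', hM', hMd', V', hV'⟩ := h'
  refine ⟨M * M', I.mul_mem hM hM', by rw [Matrix.det_mul, hMd, hMd', one_mul], ?_⟩
  obtain ⟨r, hr⟩ : ∃ r, r = (p : ZMod (p ^ (k + 1))) := ⟨_, rfl⟩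
  rw [← hr] at hV hV' ⊢
  refine ⟨V + V' + (r ^ n) • (W * W') + (r ^ (n + 1)) • (W * V') + (r ^ (n + 1)) • (V * W')
    + (r ^ (n + 2)) • (V * V'), ?_⟩
  rw [hV, hV']
  simp only [mul_add, add_mul, mul_one, one_mul, smul_mul_assoc, mul_smul_comm, smul_smul,
    smul_add]
  module

omit [Fact p.Prime] in
lemma Q.nsmul {n : ℕ} {W : Matrix (Fin 2) (Fin 2) (ZMod (p ^ (k + 1)))}
    (h : Q I (n + 1) W) (c : ℕ) : Q I (n + 1) ((c : ZMod (p ^ (k + 1))) • W) := by
  induction c with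
  | zero => simpa using Q.zero (I := I) (n + 1)
  | succ c ih =>
    have := ih.add h
    convert this using 1
    push_cast
    rw [add_smul, one_smul]

lemma Q.smul {n : ℕ} {W : Matrix (Fin 2) (Fin 2) (ZMod (p ^ (k + 1)))}
    (h : Q I (n + 1) W) (c : ZMod (p ^ (k + 1))) : Q I (n + 1) (c • W) := by
  have hp : p.Prime := Fact.out
  haveI : NeZero (p ^ (k + 1)) := ⟨pow_ne_zero _ hp.ne_zero⟩
  have := h.nsmul c.val
  rwa [ZMod.natCast_zmod_val] at this

omit [Fact p.Prime] in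
lemma Q.congr {n : ℕ} {W : Matrix (Fin 2) (Fin 2) (ZMod (p ^ (k + 1)))}
    (h : Q I n W) (T : Matrix (Fin 2) (Fin 2) (ZMod (p ^ (k + 1)))) :
    Q I n (W + (p : ZMod (p ^ (k + 1))) • T) := by
  obtain ⟨M, hM, hMd, V, hV⟩ := h
  refine ⟨M, hM, hMd, V - T, ?_⟩
  rw [hV]
  simp only [smul_sub, smul_add, smul_smul]
  module

/-- the unipotent matrices -/
lemma q_base (hp5 : 5 ≤ p) (hI : ∀ M ∈ I, IsUnit M.det)
    (hs : ∀ s : Matrix (Fin 2) (Fin 2) (ZMod p), s.det = 1 → ∃ M ∈ I, red p k M = s)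
    (u : Matrix (Fin 2) (Fin 2) (ZMod (p ^ (k + 1)))) (hu : u * u = 0) (hd : (1 + u).det = 1)
    (n : ℕ) : Q I (n + 1) u := by
  have hp : p.Prime := Fact.out
  induction n with
  | zero =>
    obtain ⟨y, hy, hyd, hyr⟩ := rch_all hp5 hI hs (red p k (1 + u)) (by
      rw [← RingHom.map_det, hd, map_one])
    obtain ⟨V, hV⟩ := mat_ker hp y (1 + u) hyr
    obtain ⟨Z, hZ⟩ := step0 (R := ZMod (p ^ (k + 1))) hp hp5 u V hu
    refine ⟨y ^ p, I.pow_mem hy p, by rw [Matrix.det_pow, hyd, one_pow], Z, ?_⟩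
    rw [hV, add_assoc, hZ]
  | succ n ih =>
    obtain ⟨y, hy, hyd, V, hV⟩ := ih
    obtain ⟨Z, hZ⟩ := step (R := ZMod (p ^ (k + 1))) hp hp5 n
      (u + (p : ZMod (p ^ (k + 1))) • V)
    refine ⟨y ^ p, I.pow_mem hy p, by rw [Matrix.det_pow, hyd, one_pow], V + Z, ?_⟩
    have : y = 1 + ((p : ZMod (p ^ (k + 1))) ^ (n + 1)) • (u + (p : ZMod (p ^ (k + 1))) • V) := by
      rw [hV]
      simp only [smul_add, smul_smul]
      module
    rw [this, hZ]
    simp only [smul_add, smul_smul]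
    module

/-- all matrices of trace zero modulo `p` -/
lemma q_all (hp5 : 5 ≤ p) (hI : ∀ M ∈ I, IsUnit M.det)
    (hs : ∀ s : Matrix (Fin 2) (Fin 2) (ZMod p), s.det = 1 → ∃ M ∈ I, red p k M = s)
    (W : Matrix (Fin 2) (Fin 2) (ZMod (p ^ (k + 1)))) (t : ZMod (p ^ (k + 1)))
    (ht : W 0 0 + W 1 1 = (p : ZMod (p ^ (k + 1))) * t) (n : ℕ) : Q I (n + 1) W := by
  have he : Q I (n + 1) !![0, 1; 0, 0] := by
    apply q_base hp5 hI hs
    · ext i j
      fin_cases i <;> fin_cases j <;> simp [Matrix.mul_apply, Fin.sum_univ_two]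
    · rw [Matrix.det_fin_two]; simp
  have hf : Q I (n + 1) !![0, 0; 1, 0] := by
    apply q_base hp5 hI hs
    · ext i j
      fin_cases i <;> fin_cases j <;> simp [Matrix.mul_apply, Fin.sum_univ_two]
    · rw [Matrix.det_fin_two]; simp
  have hg : Q I (n + 1) !![1, -1; 1, -1] := by
    apply q_base hp5 hI hs
    · ext i j
      fin_cases i <;> fin_cases j <;> simp [Matrix.mul_apply, Fin.sum_univ_two]
    · rw [Matrix.det_fin_two]; simp
  have h := (((hg.smul (W 0 0)).add (he.smul (W 0 1 + W 0 0))).add (hf.smul (W 1 0 - W 0 0))).congr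
    !![0, 0; 0, t]
  convert h using 1
  ext i j
  fin_cases i <;> fin_cases j <;> simp
  linear_combination ht

lemma lift_mem (hp5 : 5 ≤ p) (hI : ∀ M ∈ I, IsUnit M.det)
    (hs : ∀ s : Matrix (Fin 2) (Fin 2) (ZMod p), s.det = 1 → ∃ M ∈ I, red p k M = s) (d : ℕ) :
    ∀ n : ℕ, n + d = k → ∀ M W : Matrix (Fin 2) (Fin 2) (ZMod (p ^ (k + 1))), M.det = 1 →
      M = 1 + ((p : ZMod (p ^ (k + 1))) ^ (n + 1)) • W → M ∈ I := by
  have hp : p.Prime := Fact.out
  induction d with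
  | zero =>
    intro n hn M W hM hMW
    have h0 : ((p : ZMod (p ^ (k + 1))) ^ (n + 1)) = 0 := by
      have : n = k := by omega
      rw [this]
      exact_mod_cast ZMod.natCast_self (p ^ (k + 1))
    rw [hMW, h0, zero_smul, add_zero]
    exact I.one_mem
  | succ d ih =>
    intro n hn M W hM hMW
    obtain ⟨t, ht⟩ : ∃ t, W 0 0 + W 1 1 = (p : ZMod (p ^ (k + 1))) * t := by
      obtain ⟨r, hr⟩ : ∃ r, r = (p : ZMod (p ^ (k + 1))) := ⟨_, rfl⟩
      have h1 : r ^ (n + 1) * (W 0 0 + W 1 1 + r ^ (n + 1) * (W 0 0 * W 1 1 - W 0 1 * W 1 0)) = 0 := by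
        have := hM
        rw [hMW, Matrix.det_fin_two] at this
        simp only [Matrix.add_apply, Matrix.smul_apply, smul_eq_mul, Matrix.one_apply_eq, ← hr,
          Matrix.one_apply_ne (show (0 : Fin 2) ≠ 1 by decide),
          Matrix.one_apply_ne (show (1 : Fin 2) ≠ 0 by decide)] at this
        linear_combination this
      rw [hr] at h1
      obtain ⟨t, ht⟩ := pow_mul_zero hp (by omega) _ h1
      refine ⟨t - (p : ZMod (p ^ (k + 1))) ^ n * (W 0 0 * W 1 1 - W 0 1 * W 1 0), ?_⟩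
      linear_combination ht
    obtain ⟨h, hh, hhd, V, hV⟩ := q_all hp5 hI hs W t ht n
    obtain ⟨N, hN, hN1, hN2⟩ := inv_mem hp hI hh
    have hNd : N.det = 1 := by
      have : h.det * N.det = 1 := by rw [← Matrix.det_mul, hN1, Matrix.det_one]
      rwa [hhd, one_mul] at this
    have h1 : M * N = 1 + ((p : ZMod (p ^ (k + 1))) ^ (n + 1 + 1)) • (-(V * N)) := by
      have h2 : M = h - ((p : ZMod (p ^ (k + 1))) ^ (n + 1 + 1)) • V := by
        rw [hV, hMW]
        abel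
      rw [h2, sub_mul, hN1, smul_mul_assoc, smul_neg, sub_eq_add_neg]
    have h2 : M * N ∈ I := ih (n + 1) (by omega) _ _ (by rw [Matrix.det_mul, hM, hNd, one_mul]) h1
    have h3 : M = M * N * h := by rw [mul_assoc, hN2, mul_one]
    rw [h3]
    exact I.mul_mem h2 hh

end main

theorem t_SERRE : Pool.Agent.N495.TS.S_SERRE := by
  intro p k hp hp5 I hI hs M hM
  haveI : Fact p.Prime := ⟨hp⟩
  have hs' : ∀ s : Matrix (Fin 2) (Fin 2) (ZMod p), s.det = 1 → ∃ M ∈ I, red p k M = s := hs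
  obtain ⟨h, hh, hhd, hr⟩ := rch_all hp5 hI hs' (red p k M) (by
    rw [← RingHom.map_det, hM, map_one])
  obtain ⟨V, hV⟩ := mat_ker hp M h hr.symm
  obtain ⟨N, hN, hN1, hN2⟩ := inv_mem hp hI hh
  have hNd : N.det = 1 := by
    have : h.det * N.det = 1 := by rw [← Matrix.det_mul, hN1, Matrix.det_one]
    rwa [hhd, one_mul] at this
  have h1 : M * N = 1 + ((p : ZMod (p ^ (k + 1))) ^ (0 + 1)) • (V * N) := by
    conv_lhs => rw [hV]
    rw [add_mul, hN1, smul_mul_assoc, zero_add, pow_one]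
  have h2 : M * N ∈ I := lift_mem hp5 hI hs' k 0 (by omega) _ _
    (by rw [Matrix.det_mul, hM, hNd, one_mul]) h1
  have h3 : M = M * N * h := by rw [mul_assoc, hN2, mul_one]
  rw [h3]
  exact I.mul_mem h2 hh

end Pool.Agent.N524.TS

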